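import Pool.Agent.MWGX.StmtsA
import Pool.Agent.MWGQ.Stmts

/-!
# MWGY: the exchange of two light letters over a gap, for all contents (definitions)

MP_23468a_al, gamma world `xyx ≈ xyx^(n+1)`, period `n ≥ 2`, region without mixing: the doubling
pentagon of MWGN / MWGQ with gaps.  `Nm`, `WC`, `WT`, `Tau`, `Ns`, `nl`, `sg`, `nn`, `gh` are those of MWGN,
`pw`, `bd`, `kr`, `krl`, `Rs`, `Gn`, `E0`, `A0`, `P0` those of MWGQ, `gL`, `gR`, `Ex`, `OX`, `Dl` those of MWGX,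
`It`, `Es`, `FE` those of MWGR.
-/

set_option autoImplicit false

namespace Pool.Agent.MWGY

open Pool.Agent.Helper14_MV
open Pool.Agent.Helper2_MV (RR)
open Pool.Agent.MWK (pre)
open Pool.Agent.MWGN (nn Nm WC WT Tau Ns nl sg gh)
open Pool.Agent.MWGQ (pw bd kr krl Rs Gn E0 A0 P0)
open Pool.Agent.MWGX (gL gR Ex Dl)

/-- **kappa with a gap**: `X^n A X^(n+1) B X^n D A L_0 C_0^(n+1) .. C_(m-1)^(n+1) L_m B E
(S_i L_i)_(i ∈ τ) ≈ X^(n+1) B X^(2n-1) A X^(n+1) D A ..` -/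
def Kg (n : ℕ) (β : FIC) (τ : List ℕ) (m : ℕ) : Prop :=
  ∀ (X A B D E : List ℕ) (S L C : ℕ → List ℕ),
    RR β (gL n 1 X A B ++ kr n A B D E S L C τ m) (gR n 1 X A B ++ kr n A B D E S L C τ m)

/-- the conditions for one level: `h` is the heavy letter in the first block, the labels of `x` and
`y` differ by `1` modulo `δ` -/
structure Lv (n δ : ℕ) (ν : Nm) (h : ℕ) (τ : List ℕ) (m nc : ℕ) (w : List ℕ) : Prop where
  c : WC ν m nc w
  t : WT ν τ m w
  r : Rs n ν m nc w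
  h2 : 2 ≤ w.count h
  ha : nn w h ν.a = w.count h
  g : nn w h ν.y ≡ nn w h ν.x + 1 [MOD δ]

/-! ### the letters and words of the pentagon -/

/-- level 1: `x = 0`, `y = 1`, `a = 2`, `b = 3` (heavy letter `5`) -/
def M1 : Nm := ⟨0, 1, 2, 3, fun i => 7 + 6 * i, fun i => 8 + 6 * i, fun i => 9 + 6 * i⟩

/-- level 2: `x = L m`, `y = L (m+1)`, `a = S m` (letters of level 1), `b = 4` (heavy letter `6`) -/
def M2 (m : ℕ) : Nm := ⟨M1.L m, M1.L (m + 1), M1.S m, 4, fun i => 10 + 6 * i, fun i => 11 + 6 * i,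
  fun i => 12 + 6 * i⟩

/-- the conditions without the two special orders -/
structure K0 (n δ : ℕ) (τ : List ℕ) (m : ℕ) (w : List ℕ) : Prop where
  l1 : Lv n δ M1 5 τ m m w
  l2 : Lv n δ (M2 m) 6 τ m (m + 1) w

/-- `0` before `1` in front of `2` -/
def Kb (n δ : ℕ) (τ : List ℕ) (m : ℕ) (w : List ℕ) : Prop := K0 n δ τ m w ∧ nn w 0 1 = 1

/-- `L m` before `L (m+1)` -/
def Kc (n δ : ℕ) (τ : List ℕ) (m : ℕ) (w : List ℕ) : Prop :=
  K0 n δ τ m w ∧ nn w (M1.L m) (M1.L (m + 1)) = 1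

/-- the block behind the simple letter `S i` of level 1 -/
def T1 (n m i : ℕ) : List ℕ :=
  if i = m then M1.L m :: (bd n (sg (M2 m).L) (sg (M2 m).C) (m + 1) ++
    [(M2 m).L (m + 1), M1.L (m + 1)]) else [M1.L i]

/-- the block behind the simple letter `S i` of level 2 -/
def T2 (m i : ℕ) : List ℕ :=
  if i = m then [(M2 m).L m, (M2 m).L (m + 1)] else [(M2 m).L i]

/-- the four words: order of `0, 1` (over powers of `5`) and order of `L m`, `L (m+1)` (over powers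
of `6`) -/
def wg (n : ℕ) (τ : List ℕ) (m : ℕ) (o o' : Bool) : List ℕ :=
  (if o then gL n 1 [5] [0] [1] else gR n 1 [5] [0] [1]) ++
    2 :: 0 :: (bd n (sg M1.L) (sg M1.C) m ++
      ((if o' then gL n 1 [6] [M1.L m] [M1.L (m + 1)] else gR n 1 [6] [M1.L m] [M1.L (m + 1)]) ++
        1 :: 3 :: (τ.flatMap (fun i => M1.S i :: T1 n m i) ++
          4 :: τ.flatMap (fun i => (M2 m).S i :: T2 m i))))

end Pool.Agent.MWGY
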