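import Pool.Agent.MWGY.Defs

/-!
# MWGY: the exchange of two light letters over a gap, for all contents (rows)

MP_23468a_al, gamma world, period `n ≥ 2`.  Every row is self contained, its complete proof is in the
docstring.  Many rows are twins of proved rows of MWGN / MWGQ (tables mwgn, mwgq, column path): the
adjacent pair `X Y` is replaced by `gL n c Z A B = Z^n A Z^(n+c) B Z^n` and `Y X` by
`gR n c Z A B = Z^(n+c) B Z^(n+(n-1)c) A Z^(n+c)`.  Tools: `RR.append`, `RR.sub`, `RR.filter`, `RR.symm`,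
`RR.refl`, `β.trans`; the lemmas on `pre` in MWK/Defs.lean; `MWGN.cov`, `MWGN.pig`, `gh_succ`;
`count_pw`, `mem_pw`, `pw_succ`, `flat_rep`, `OX.symm` in MWGX/Defs.lean.  In the combinatorial rows
`w = p ++ (gL n c Z A B ++ (F ++ (A ++ (G ++ (B ++ H)))))` and all letters of `G` occur at least twice in
`w`; a letter `s` with `w.count s = 1` is not in `Z, A, B, G`.
-/

set_option autoImplicit false

namespace Pool.Agent.MWGY

open Pool.Agent.Helper14_MV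
open Pool.Agent.Helper2_MV (RR)
open Pool.Agent.MWK (pre)
open Pool.Agent.MWF (gaml)
open Pool.Agent.MWGN (nn Nm WC WT Tau Ns nl sg gh)
open Pool.Agent.MWGQ (pw bd kr krl Rs Gn E0 A0 P0)
open Pool.Agent.MWGX (gL gR Ex OX Dl)
open Pool.Agent.MWGR (X It Es FE)

/-! ### the identities -/

/-- KAG (medium-strong, uses MWGQ.PWX).  `x^2zsz ≈ x^2zx^nsz` and `Es 1` imply `Kg`.
Proof.  Twin of MWGQ.KAR (copy the file): `P = gL n 1 X A B` or `gR n 1 X A B` contains `A` and `B` as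
factors.  As there (with `A` in the role of `X`): `P D A bd_m L_m B E .. ~ P D A bd_m I L_m I B E .. ~
P D A bd_m L_m I B E ..`, `I = pw n A = pw (n-1) A ++ A`.  `Es n 1` (`0 ↦ X`, `1 ↦ A`, `2 ↦ B`,
`3 ↦ D A bd_m L_m A^(n-1)`) exchanges `gL` and `gR` in front of `.. A B E ..`, and back. -/
def KagStmt : Prop := ∀ (n : ℕ) (β : FIC), Gn n β → A0 n β → Es n 1 (RR β) →
  ∀ (m : ℕ) (τ : List ℕ), Tau τ m → Kg n β τ m

/-- KPG (medium, uses MWGQ.PWX).  `xtzxsz ≈ xtx^nzxsz` and `Es 1` imply `Kg`.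
Proof.  Twin of MWGQ.KPR (copy the file): for every word `Q` with the factor `B` (in the role of `Y`)
`Q R_0 ~ Q J R_0`, `J = pw n B`.  So `P D A R_0 ~ P D A J R_0`, `J = B B^(n-1)`, and `Es n 1` (`3 ↦ D`)
exchanges `gL` and `gR` in front of `D A B ..`. -/
def KpgStmt : Prop := ∀ (n : ℕ) (β : FIC), Gn n β → P0 n β → Es n 1 (RR β) →
  ∀ (m : ℕ) (τ : List ℕ), Tau τ m → Kg n β τ m

/-- NOH (medium).  The literal form with the heavy letter `h`.
Proof.  `h` is different from all names: `nn w h a = w.count h ≥ 2`, but `nn w c a ≤ 1` for `x`, `y` (1),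
`L i`, `C i`, (0), and `a, b, S i` occur once.  All `h` are in front of `a`.  `w = pre w a ++ a :: B0`,
`(B0).filter (h or name) = B0.filter (name) = T` (`h ∉ B0`; `a` is a name and occurs once), and
`(pre w a).filter name = P`, so `(pre w a).filter (h or name)` consists of `h`, one `x`, one `y`.  Cut it
at `x` and `y`: `i`, `j`, `k` are the numbers of `h`; `pre w x`, `pre w y` are prefixes of `pre w a`. -/
def NohStmt : Prop := ∀ (ν : Nm) (h m nc : ℕ) (w : List ℕ), m ≤ nc → WC ν m nc w →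
  (∀ i ≤ m, w.count (ν.S i) = 1) → nn w h ν.a = w.count h → 2 ≤ w.count h → h ∉ nl ν m ∧
    ∀ P T : List ℕ, w.filter (fun c => decide (c ∈ nl ν m)) = P ++ ν.a :: T → ν.a ∉ P →
      ((P = [ν.x, ν.y] → ∃ i j k, i = nn w h ν.x ∧ i + j = nn w h ν.y ∧
        w.filter (fun c => decide (c ∈ h :: nl ν m)) = List.replicate i h ++ ν.x ::
          (List.replicate j h ++ ν.y :: (List.replicate k h ++ ν.a :: T))) ∧
      (P = [ν.y, ν.x] → ∃ i j k, i = nn w h ν.y ∧ i + j = nn w h ν.x ∧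
        w.filter (fun c => decide (c ∈ h :: nl ν m)) = List.replicate i h ++ ν.y ::
          (List.replicate j h ++ ν.x :: (List.replicate k h ++ ν.a :: T))))

/-- REH (medium).  Renaming.  Twin of MWGQ.REN (copy the file): the names `h :: nl ν m` are different;
`RR.sub` with `h ↦ X`, `x ↦ A`, `y ↦ B`, `a ↦ D`, `b ↦ E`, `S i ↦ S i`, ...  (`(pw k u).flatMap f =
pw k (u.flatMap f)`). -/
def RehStmt : Prop := ∀ (n : ℕ) (β : FIC) (ν : Nm) (h : ℕ) (τ : List ℕ) (m : ℕ), Tau τ m →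
  (h :: nl ν m).Nodup →
  RR β (gL n 1 [h] [ν.x] [ν.y] ++ krl n ν τ m) (gR n 1 [h] [ν.x] [ν.y] ++ krl n ν τ m) → Kg n β τ m

/-- LVB (easy-medium, uses MWGQ.WCV, MWGQ.OLR, MWGQ.CNT, MWGX.LBW).  `β` keeps the conditions.
Proof.  `WC`, `WT`, `Rs`: WCV.  `h2`: CNT.  `ha`: OLR, third part (`h ≠ a`: `w.count a = 1`).  `g`: LBW with
`(d, q, s) = (h, x, a)` and `(h, y, a)` (`x2`, `xa`, `y2`, `ya`). -/
def LvbStmt : Prop := ∀ (n : ℕ) (β : FIC) (δ : ℕ), Gn n β → ¬ E0 n β → ¬ P0 n β → ¬ A0 n β →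
  It n (RR β) → Dl n β δ → ∀ (ν : Nm) (h : ℕ) (τ : List ℕ) (m nc : ℕ), Ns ν m → nc ≤ m + 1 →
    ∀ w w' : List ℕ, RR β w w' → Lv n δ ν h τ m nc w → Lv n δ ν h τ m nc w'

/-- SPG (medium-strong, uses MWGN.NOA, MWGQ.NOR, MWGQ.NOB, MWGN.DST, MWGX.XCH, NOH, REH, LVB).
**The special order is kept.**
Proof.  `w'` satisfies `Lv` (LVB).  Suppose `nn w' x y ≠ 1`.  NOA for `w` (`P = [x, y]`) and `w'`
(`P = [y, x]`): exponents `i, j, e, f` and `i', j', e', f'`; NOR and `Rs`: `i ≡ j ≡ 1`, `e r ≡ 1` (`r < m`),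
`f r ≡ 1` (`r ≤ m`), the same for `w'`.  NOH: `RR.filter (· ∈ h :: nl ν m)` gives
`h^i0 x h^j0 y h^k0 a T ~ h^i1 y h^j1 x h^k1 a T'` with `j0 = nn w h y - nn w h x`, so `j0 ≡ 1 [MOD δ]`
(`Lv.g`), and `T = x^i (L 0) .. `, `T'` the lists of NOA behind `a`.  Rename `h ↦ 0`, `x ↦ 1`, `y ↦ 2`, `a ↦ 3`,
`c ↦ c + 4` for the other letters (`RR.sub`; all names are different: DST, NOH), XCH with `c = 1`
(`1, 2 ∈ T, T'`, `0, 3 ∉ T, T'`), rename back:
`gL n 1 [h] [x] [y] ++ a :: T ~ gR n 1 [h] [x] [y] ++ a :: T'`.  NOB with `P = gL ..` for the left side and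
`P = gR ..` for the right side (`x, y ∈ P`): `gL .. ++ krl ~ gR .. ++ krl`.  REH: `Kg n β τ m`. -/
def SpgStmt : Prop := ∀ (n : ℕ) (β : FIC) (δ : ℕ), Gn n β → ¬ E0 n β → ¬ P0 n β → ¬ A0 n β →
  It n (RR β) → Dl n β δ → ∀ (ν : Nm) (h : ℕ) (τ : List ℕ) (m nc : ℕ), Ns ν m → Tau τ m →
    m ≤ nc → nc ≤ m + 1 → ¬ Kg n β τ m → ∀ w w' : List ℕ, RR β w w' → Lv n δ ν h τ m nc w →
      nn w ν.x ν.y = 1 → nn w' ν.x ν.y = 1

/-- VCG (easy, uses LVB, SPG).  `β` keeps `Kb` and `Kc`.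
Proof.  `Ns M1 m`, `Ns (M2 m) m`: the numbers are different (`M1.S i = 7 + 6 i`, `(M2 m).S i = 10 + 6 i`,
`(M2 m).a = 7 + 6 m`). -/
def VcgStmt : Prop := ∀ (n : ℕ) (β : FIC) (δ : ℕ), Gn n β → ¬ E0 n β → ¬ P0 n β → ¬ A0 n β →
  It n (RR β) → Dl n β δ → ∀ (τ : List ℕ) (m : ℕ), Tau τ m → ¬ Kg n β τ m →
    ∀ w w' : List ℕ, RR β w w' →
      (Kb n δ τ m w → Kb n δ τ m w') ∧ (Kc n δ τ m w → Kc n δ τ m w')

/-- FEW (strong, uses MWGQ.PWX).  **`Kg` for all orders and `I1` imply `FE`.**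
Proof.  Twin of MWGQ.CMW (copy the file).  There `U = p x y q x` or `p y x q x`; here `U = p g q a` with
`g = gL n 1 [x] [a] [b]` or `gR n 1 [x] [a] [b]` (the two sides of `FE`: `n + (n-1) * 1`), `a` in the role of
`x` and `b` in the role of `y` behind `q`; all normalisations of `w` are the same (`a, b ∈ U`).  No `z_i`:
`p g q (D u_0) a b r`: `Kg` with `m = 0`, `τ = [0]`, `L 0 = []` (this is `Es`: `kr n A B D E S L C [0] 0 =
D ++ (A ++ ([] ++ ([] ++ (B ++ (E ++ ..)))))`).  Otherwise `Kg n β τ k` with `X = [x]`, `A = [a]`, `B = [b]`,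
`D = q ++ D u_0`, `E = []`, the rest as in CMW. -/
def FewStmt : Prop := ∀ (n : ℕ) (β : FIC), Gn n β → MWZ.I1 n (RR β) →
  (∀ (m : ℕ) (τ : List ℕ), Tau τ m → Kg n β τ m) → FE n 1 (RR β)

/-! ### steps (combinatorics of lists, no congruence) -/

/-- EXG (medium-strong).  **Exchange: positions relative to a light letter.**
Proof.  `R = F A G B H`, `z = Z.count d`; `w'.count d = w.count d + n c z`.  `q ∈ p`: both `pre` are
`pre p q`; if `z = 0` the counts are equal, if `z ≥ 1` both equalities with the count are false.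
`q ∉ p`, `q ∈ Z`: `s ∈ p` is impossible (`nn w q s = 1`), so `s ∈ R` and `nn w q s ≥ 3`: impossible.
`q ∉ p, Z, A, B` (`q ∈ w`): both `pre` are `p ++ (gL, gR) ++ pre R q`, `nn w' d q = nn w d q + n c z`; `z = 0`:
nothing changes; `z ≥ 1`: both numbers are `≥ 3`, and the equalities with the counts are equivalent.
`q ∈ A`: `s ∉ p`, so `s ∈ R`, and `s ∈ F` (otherwise the second `A` is in front of `s`: two `q`); `q ∉ B`;
all `d` are in front of `s`, so `d ∉ A, B` (they occur behind `F`).  `nn w d q = p.count d + n z`,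
`nn w' d q = p.count d + (2n + n c) z`.  `z = 0`: equal.  `z ≥ 1`: both `≥ 2` (`n ≥ 2`), and there is a power
of `Z` behind `q` in both words, so both equalities with the counts are false.
`q ∈ B`, `q ∉ A`: `s ∈ F` (`s ∉ G`; otherwise the second `B` is in front of `s`), `d ∉ A, B`,
`nn w d q = p.count d + (2n + c) z`, `nn w' d q = p.count d + (n + c) z`, the same conclusion. -/
def ExgStmt : Prop := ∀ (n c : ℕ) (p Z A B F G H w w' : List ℕ), 2 ≤ n →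
  Ex n c p Z A B F G H w w' → (∀ d ∈ G, 2 ≤ w.count d) → ∀ d q s : ℕ, w.count s = 1 →
    q ≠ s → d ≠ s → nn w q s = 1 → nn w d s = w.count d →
      (nn w d q = 0 ↔ nn w' d q = 0) ∧ (nn w d q = 1 ↔ nn w' d q = 1) ∧
        (nn w d q = w.count d ↔ nn w' d q = w'.count d)

/-- LVX (easy-medium, uses MWGX.EXS, MWGX.EXL, EXG).  The steps keep the conditions.
Proof.  Fields with `a`, `b`, `S i` and the counts: EXS (`OX`).  `xl`, `yl`, `cl0`, `cl1`: EXG with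
`q = L i`, `s = b` (`lb`, `xb`, `yb`, `cb`; different from `b` by the counts).  `Rs`: EXS.  `g`: EXL with
`d = h`, `q = x` resp. `y`, `s = a`, first alternative of `Gd`, and `δ ∣ n`.  For the converse transport the
assumptions to `w` first (`OX.symm`). -/
def LvxStmt : Prop := ∀ (n c δ : ℕ), 2 ≤ n → δ ∣ n → ∀ (ν : Nm) (h : ℕ) (τ : List ℕ) (m nc : ℕ),
  nc ≤ m + 1 → ∀ (p Z A B F G H w w' : List ℕ), Ex n c p Z A B F G H w w' →
    (∀ d ∈ G, 2 ≤ w.count d) → (Lv n δ ν h τ m nc w ↔ Lv n δ ν h τ m nc w')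

/-- SPY (easy-medium, uses MWGX.EXO).  **The special order under the exchange.**
Proof.  EXO with `q1 = x`, `q2 = y`, `s = a` (`xa`, `ya`; `x, y ≠ a` by the counts).  First part: the first
part of EXO.  Second part: otherwise EXO gives `x ∈ B`, `y ∈ A`, `a ∈ F`.  Let `μ = L 0`.  All `x` are in
front of the first `μ` (`xl`), in particular the `x` in the second `B`; so the first and the second `A`
are in front of the first `μ`, and `nn w y μ ≥ 2`, contradiction to `yl`. -/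
def SpyStmt : Prop := ∀ (n c : ℕ), 1 ≤ n → ∀ (ν : Nm) (m nc : ℕ) (p Z A B F G H w w' : List ℕ),
  Ex n c p Z A B F G H w w' → (∀ d ∈ G, 2 ≤ w.count d) → WC ν m nc w →
    (nn w ν.x ν.y = 1 → ¬ (ν.x ∈ A ∧ ν.y ∈ B) → nn w' ν.x ν.y = 1) ∧
    (nn w' ν.x ν.y = 1 → nn w ν.x ν.y = 1)

/-- MPG (medium).  **Main case, positions.**  Twin of MWGN.MPO (copy the file).
Proof.  `a ∉ Z, A, B, G`.  `a ∈ p`: the `x` and the `y` with `nn = 1` are in `p`; all `x` are in front of the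
first `L i` (`xl`), so the first `B` is in front of it, `nn w y (L i) ≥ 2`: contradiction to `yl`.  `a ∈ H`:
`A` twice in front of `a`: contradiction to `xa`.  So `a ∈ F`; `L i ∉ p, Z, A, B` (`l0`).  `L i ∉ F`: otherwise the
`x` in the second `A` is behind the first `L i`: contradiction to `xl`.  `L i ∈ w`; if `L i ∉ G` then the first
`L i` is in `H` and `B` is twice in front of it: contradiction to `yl`.  So `L i ∈ G` and
`pre w (L i) = p ++ gL ++ F ++ A ++ pre G (L i)`.  `b` is not in `Z, A, B, G`, and `b` in `p, F` is impossible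
(`lb`: one `L i` in front of `b`), so `b ∈ H`, `G.count (L i) ≤ nn w (L i) b = 1`.  Contents: `cl0` with `j ≤ i`:
`C i ∉ pre w (L j)`, so `C i ∉ p, Z, A, B, F` and `C i ∉ pre G (L j)`; `cl1` (`j > i`): all `C i` are in
`pre w (L j)`, so `C i ∈ pre G (L j)`, `C i ∉ H`. -/
def MpgStmt : Prop := ∀ (n c : ℕ), 1 ≤ n → ∀ (ν : Nm) (m nc : ℕ), nc ≤ m + 1 →
  ∀ (p Z A B F G H w : List ℕ), w = p ++ (gL n c Z A B ++ (F ++ (A ++ (G ++ (B ++ H))))) →
    (∀ d ∈ G, 2 ≤ w.count d) → WC ν m nc w → ν.x ∈ A → ν.y ∈ B →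
      ν.a ∈ F ∧ ν.b ∈ H ∧
      (∀ i ≤ m + 1, ν.L i ∉ p ∧ ν.L i ∉ Z ∧ ν.L i ∉ A ∧ ν.L i ∉ B ∧ ν.L i ∉ F ∧
        G.count (ν.L i) = 1 ∧
        pre w (ν.L i) = p ++ (gL n c Z A B ++ (F ++ (A ++ pre G (ν.L i))))) ∧
      (∀ i < nc, ν.C i ∉ H ∧ (∀ j ≤ i, ν.C i ∉ pre G (ν.L j)) ∧
        (∀ j, i < j → j ≤ m + 1 → ν.C i ∈ pre G (ν.L j)))

/-- MCG (medium, uses MPG, `MWGN.cov`).  **Main case, covering.**  Twin of MWGN.MCV (copy the file);
new: the part `U` in front, whose letters occur twice in `G` (so `L j ∉ U` because `G.count (L j) = 1`). -/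
def McgStmt : Prop := ∀ (n c : ℕ), 1 ≤ n → ∀ (ν : Nm) (m nc : ℕ), m ≤ nc → nc ≤ m + 1 →
  ∀ (p Z A B F G H w : List ℕ), w = p ++ (gL n c Z A B ++ (F ++ (A ++ (G ++ (B ++ H))))) →
    (∀ d ∈ G, 2 ≤ w.count d) → WC ν m nc w → ν.x ∈ A → ν.y ∈ B →
      ∀ (U : List ℕ) (g h : ℕ → List ℕ), G = U ++ gh g h (m + 2) →
      (∀ i < m + 2, ∀ e ∈ g i, e ∈ H) → (∀ e ∈ U, 2 ≤ G.count e) →
      (∀ i < m + 2, ∀ e ∈ h i, 2 ≤ G.count e) →
      (nc = m → ∀ i < m + 2, ¬ (ν.L m ∈ g i ∧ ν.L (m + 1) ∈ g i)) →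
      (nc = m → ν.L m ∈ pre G (ν.L (m + 1))) →
        (∀ i < m + 2, ν.L i ∈ g i) ∧ (∀ i < nc, ν.C i ∈ h i)

/-- HZG (medium, uses MPG).  Twin of MWGN.HZE (copy the file).
Proof.  Let `μ = (M2 m).L 0`; `nn w (L m) μ = w.count (L m)` and `nn w (L (m+1)) μ = 1` (second `WC`: `xl`, `yl`).
`w = P ++ (H1 ++ (E ++ H2))` with `P = p gL F A G B`, `L (m+1) ∈ G` (MPG).  `L m ∈ E` is in front of the first
`μ`, so `μ ∉ P`, `μ ∉ H1`, and `μ ∈ E` or `E` is completely in front of the first `μ`; in the second case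
`L (m+1)` occurs twice in front of `μ` (in `G` and in `E`), contradiction.  So `μ ∈ E`, and `μ ∉ G` since
`μ ∉ P`. -/
def HzgStmt : Prop := ∀ (n c : ℕ), 1 ≤ n → ∀ (m : ℕ) (p Z A B F G H H1 E H2 w : List ℕ),
  w = p ++ (gL n c Z A B ++ (F ++ (A ++ (G ++ (B ++ H))))) → (∀ d ∈ G, 2 ≤ w.count d) →
    WC M1 m m w → WC (M2 m) m (m + 1) w → 0 ∈ A → 1 ∈ B → H = H1 ++ (E ++ H2) →
      M1.L m ∈ E → M1.L (m + 1) ∈ E → (M2 m).L 0 ∈ E ∧ (M2 m).L 0 ∉ G

/-! ### the words -/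

/-- SG1 (medium-strong, uses MWGN.PRF, MWGQ.PRB).  The word `wg n τ m true true`, level 1.  Twin of
MWGQ.SA1 (copy the file): the first block is `5^n 0 5^(n+1) 1 5^n`, the lights `L m`, `L (m+1)` stand in
`6^n L_m 6^(n+1) L_(m+1) 6^n`.  `nn w 5 0 = n`, `nn w 5 1 = 2n + 1`, `w.count 5 = 3n + 1`. -/
def Sg1Stmt : Prop := ∀ (n δ : ℕ), 1 ≤ n → δ ∣ n → ∀ (τ : List ℕ) (m : ℕ), Tau τ m →
  Lv n δ M1 5 τ m m (wg n τ m true true) ∧ nn (wg n τ m true true) 0 1 = 1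

/-- SG2 (medium-strong, uses MWGN.PRF, MWGQ.PRB).  The same for level 2.  Twin of MWGQ.SA2.
`nn w 6 (L m) = n`, `nn w 6 (L (m+1)) = 2n + 1`, all `6` are in front of `S m`. -/
def Sg2Stmt : Prop := ∀ (n δ : ℕ), 1 ≤ n → δ ∣ n → ∀ (τ : List ℕ) (m : ℕ), Tau τ m →
  Lv n δ (M2 m) 6 τ m (m + 1) (wg n τ m true true) ∧
    nn (wg n τ m true true) (M1.L m) (M1.L (m + 1)) = 1

/-- FRG (medium-strong).  **Form of the instances.**
Proof.  As MWGQ.FOR (copy the file).  `(gL n 1 [5] [0] [1]).flatMap f = gL n 1 (f 5) (f 0) (f 1)`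
(`flat_rep`), the same for `gR`.  (1) `G = (bd .. ++ gL n 1 [6] [L m] [L (m+1)]).flatMap f` for `o' = true`,
with `gR` for `o' = false`.  With `(k1, k2, k3) = (n, n+1, n)` resp. `(n+1, n+(n-1)*1, n+1)`:
`U = if m = 0 then pw k1 (f 6) else []`, `h i = pw (n+1) (f (C i)) ++ (if i + 1 = m then pw k1 (f 6) else [])`
for `i < m`, `h m = pw k2 (f 6)`, `h (m+1) = pw k3 (f 6)`.  `V = (bd).flatMap f ++ pw (k1 - 1) (f 6)`.
(2) `P` is the part in front of the second exchange, `F = f 1 ++ f 3 ++ ((pre τ m).flatMap ..).flatMap f ++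
f (S m)`. -/
def FrgStmt : Prop := ∀ n : ℕ, 1 ≤ n → ∀ (τ : List ℕ) (m : ℕ), Tau τ m → ∀ (f : ℕ → List ℕ),
  (∀ o' : Bool, ∃ (G U V V' H : List ℕ) (g h : ℕ → List ℕ),
    G = U ++ gh g h (m + 2) ∧ G = V ++ (f 6 ++ (g m ++ V')) ∧
    (∀ i < m, g i = f (M1.L i)) ∧
    g m = (if o' then f (M1.L m) else f (M1.L (m + 1))) ∧
    g (m + 1) = (if o' then f (M1.L (m + 1)) else f (M1.L m)) ∧
    (∀ e ∈ U, 2 ≤ G.count e) ∧ (∀ i < m + 2, ∀ e ∈ h i, 2 ≤ G.count e) ∧ (∀ e ∈ h m, e ∈ f 6) ∧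
    (∀ o : Bool, (wg n τ m o o').flatMap f =
      (if o then gL n 1 (f 5) (f 0) (f 1) else gR n 1 (f 5) (f 0) (f 1)) ++
        (f 2 ++ (f 0 ++ (G ++ (f 1 ++ H))))) ∧
    (∀ i ≤ m + 1, ∃ H1 H2, H = H1 ++ (f (M1.L i) ++ H2)) ∧
    (∃ H1 H2 H3, H = H1 ++ (f (M1.L m) ++ (H2 ++ (f (M1.L (m + 1)) ++ H3))))) ∧
  (∀ o : Bool, ∃ P F H : List ℕ,
    (∀ o' : Bool, (wg n τ m o o').flatMap f = P ++
      ((if o' then gL n 1 (f 6) (f (M1.L m)) (f (M1.L (m + 1))) else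
        gR n 1 (f 6) (f (M1.L m)) (f (M1.L (m + 1)))) ++ (F ++ (f (M1.L m) ++
      (gh (fun i => f ((M2 m).L i)) (fun i => if i < m + 1 then pw (n + 1) (f ((M2 m).C i))
        else []) (m + 2) ++ (f (M1.L (m + 1)) ++ H)))))) ∧
    (∀ i ≤ m + 1, ∃ H1 H2, H = H1 ++ (f ((M2 m).L i) ++ H2)) ∧
    (∃ H1 H2, H = H1 ++ (f ((M2 m).L m) ++ (f ((M2 m).L (m + 1)) ++ H2))))

/-- MG1 (medium, uses FRG, MCG, MPG).  In `Kc` the exchange of `f 0`, `f 1` does not touch the pair of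
level 2.
Proof.  Suppose `z = L m ∈ f 0`, `z' = L (m+1) ∈ f 1` (`z = (M2 m).x`, `z' = (M2 m).y`).  FRG (1), `p` in front
and `q` behind (`H` becomes `H ++ q`).  The letters of `G` occur at least twice (the pins `g i` occur again
in `H`, the others twice in `G`).  MCG for `M2 m`, `nc = m + 1`: `(M2 m).L m ∈ g m`, `(M2 m).C m ∈ h m`, so
`(M2 m).C m ∈ f 6`.  `G = V ++ (f 6 ++ (g m ++ V'))`, `G.count ((M2 m).L m) = 1` (MPG), so
`(M2 m).L m ∉ V, f 6`, and `(M2 m).C m ∈ pre G ((M2 m).L m)`, contradiction to MPG. -/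
def Mg1Stmt : Prop := ∀ (n δ : ℕ), 1 ≤ n → ∀ (τ : List ℕ) (m : ℕ), Tau τ m → ∀ (o' : Bool)
  (f : ℕ → List ℕ) (p q : List ℕ), Kc n δ τ m (p ++ (wg n τ m true o').flatMap f ++ q) →
    ¬ (M1.L m ∈ f 0 ∧ M1.L (m + 1) ∈ f 1)

/-- MG2 (medium, uses FRG, MCG, MPG, HZG).  In `Kb ∩ Kc` the exchange of `f 0`, `f 1` in the word with
`o' = false` does not touch `0, 1`.
Proof.  Twin of MWGQ.MC2.  Suppose `0 ∈ f 0`, `1 ∈ f 1`.  FRG (1) with `o' = false`: `g m = f (L (m+1))`,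
`g (m+1) = f (L m)`, all pins are factors of `H`.  MCG for `M1`, `nc = m`: the condition on
`L m, L (m+1) ∈ g i`: HZG with `E = g i` gives `μ ∈ g i` and `μ ∉ G`, contradiction.  Order: `nn w z z' = 1` and
MPG: `z ∈ pre G z'`.  MCG: `z ∈ g m = f (L (m+1))`, `z' ∈ g (m+1) = f (L m)`.  `H = H1 ++ f (L m) ++ H2 ++
f (L (m+1)) ++ H3`: in `H` there is `z'` and behind it `z`.  All `z` are in front of the first `μ` (`xl` of
level 2), so this `z'` and the `z' ∈ G` are in front of the first `μ`: contradiction to `yl`. -/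
def Mg2Stmt : Prop := ∀ (n δ : ℕ), 1 ≤ n → ∀ (τ : List ℕ) (m : ℕ), Tau τ m → ∀ (f : ℕ → List ℕ)
  (p q : List ℕ), Kb n δ τ m (p ++ (wg n τ m true false).flatMap f ++ q) →
  Kc n δ τ m (p ++ (wg n τ m true false).flatMap f ++ q) → ¬ (0 ∈ f 0 ∧ 1 ∈ f 1)

/-- MG3 (medium-strong, uses FRG, MCG, MPG, HZG).  In `Kb` the exchange of `f (L m)`, `f (L (m+1))`
does not touch `0, 1`.
Proof.  Twin of MWGQ.MC3 (copy the file).  Suppose `0 ∈ f (L m)`, `1 ∈ f (L (m+1))`.  FRG (2), `o' = true`: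
`Z = f 6`, `A = f (L m)`, `B = f (L (m+1))`, pins `g i = f ((M2 m).L i)`, factors of `H`; `U = []`.  The condition
on `L m, L (m+1) ∈ g i`: HZG.  Both are in `G` (MPG), one in front of the other.  If `L m ∈ pre G (L (m+1))`:
MCG for `M1`, `nc = m`; otherwise MCG for the names with `L m` and `L (m+1)` exchanged (`WC` holds, because
for `nc = m` all conditions are symmetric in them).  In both cases `E = g m ++ g (m+1)`, a factor of `H`
(FRG), contains both, so (HZG) `μ ∈ E`, `μ ∉ G`, but `g m`, `g (m+1)` are in `G`: contradiction. -/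
def Mg3Stmt : Prop := ∀ (n δ : ℕ), 1 ≤ n → ∀ (τ : List ℕ) (m : ℕ), Tau τ m → ∀ (o : Bool)
  (f : ℕ → List ℕ) (p q : List ℕ), Kb n δ τ m (p ++ (wg n τ m o true).flatMap f ++ q) →
    ¬ (0 ∈ f (M1.L m) ∧ 1 ∈ f (M1.L (m + 1)))

/-- CLG (medium, uses FRG, LVX, SPY, MG1, MG2, MG3).  **The closure properties.**
Proof.  Twin of MWGQ.CLO.  FRG gives the form `Ex n 1 ..` (with `p`, `q` around); the letters of `G`
occur at least twice.  `K0`: LVX.  Special orders: SPY for `M1` and for `M2 m`; the forward direction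
uses MG1 (`Kc`, exchange of `0, 1`, special order of level 2), MG2 and MG1 (`Kb ∩ Kc`), MG3 (`Kb`,
exchange of `L m, L (m+1)`, special order `0, 1`). -/
def ClgStmt : Prop := ∀ (n δ : ℕ), 2 ≤ n → δ ∣ n → ∀ (τ : List ℕ) (m : ℕ), Tau τ m →
  ∀ (f : ℕ → List ℕ) (p q : List ℕ),
  (∀ o' : Bool, Kc n δ τ m (p ++ (wg n τ m true o').flatMap f ++ q) ↔
    Kc n δ τ m (p ++ (wg n τ m false o').flatMap f ++ q)) ∧
  (∀ o : Bool, Kb n δ τ m (p ++ (wg n τ m o true).flatMap f ++ q) ↔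
    Kb n δ τ m (p ++ (wg n τ m o false).flatMap f ++ q)) ∧
  ((Kb n δ τ m (p ++ (wg n τ m true false).flatMap f ++ q) ∧
      Kc n δ τ m (p ++ (wg n τ m true false).flatMap f ++ q)) ↔
    (Kb n δ τ m (p ++ (wg n τ m false false).flatMap f ++ q) ∧
      Kc n δ τ m (p ++ (wg n τ m false false).flatMap f ++ q)))

/-- DPG (medium, uses MWGX.DGR, VCG, SG1, SG2, CLG).  **The pentagon.**
Proof.  Twin of MWGQ.DPE (copy the file).  `δ` of DGR (`δ ∣ n`: `Dl.dv`).  `w1 = wg n τ m true true`,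
`w1' = wg n τ m false true`, `w2`, `w2'` with `o' = false`.  The result `Kb w1'`, but `nn w1' 0 1 = 0`
(`w1' = 5^(n+1) 1 ..`). -/
def DpgStmt : Prop := ∀ (n : ℕ) (β : FIC), 2 ≤ n → ModF β → Gn n β → ¬ E0 n β → ¬ P0 n β →
  ¬ A0 n β → It n (RR β) → ∀ (m : ℕ) (τ : List ℕ), Tau τ m → Kg n β τ m

/-- HFE (easy, uses KAG, KPG, DPG, FEW).  **The hypothesis of MWGX.REG.**
Proof.  `A0`: KAG; `P0`: KPG; otherwise DPG.  `I1` from `It` with `w = []` (`x :: x^n = x^(n+1)`).  FEW. -/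
def HfeStmt : Prop := ∀ (n : ℕ) (β : FIC), 2 ≤ n → ModF β → Gn n β → ¬ E0 n β → It n (RR β) →
  Es n 1 (RR β) → FE n 1 (RR β)

/-- RGA (easy-medium, uses MWGX.REG, MWGX.DI2, MWGX.FLX, HFE).  **The region, without hypothesis.**
Proof.  `n = 1`: `Dm 1 1` (FLX: `X 2 1 X 1 2 1 ~ X 1 1 X 2 2 1`), so `LitM` (DI2, fields of `Gn`).
`n ≥ 2`: REG with HFE. -/
def RgaStmt : Prop := ∀ (n : ℕ) (β : FIC), ModF β → Gn n β → ¬ E0 n β → It n (RR β) →
  MVO.Sys.F (RR β) → MWGP.LitM n (RR β) ∨ MWGR.Reg n (RR β)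

end Pool.Agent.MWGY
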